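import Pool.Agent.H33.HH.TD
import Pool.Agent.H99.CF.RMHN

/-!
MP_347b49_nt, module CNB: the class number of a quadratic field.
-/

set_option autoImplicit false

open NumberField

namespace Pool.Agent.H69.HH

open Pool.Agent.H33.HH Pool.Agent.H28.RC Pool.Agent.H37.CV Pool.Agent.H56.CF

theorem cnb_finite (K : Type) [Field K] [NumberField K] (x : ℝ) :
    {I : Ideal (𝓞 K) | I ≠ ⊥ ∧ nm I ≤ x}.Finite := by
  apply (Ideal.finite_setOf_absNorm_le (S := 𝓞 K) ⌊x⌋₊).subset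
  rintro I ⟨_, hI2⟩
  exact Nat.le_floor hI2

theorem cnb_sum (K : Type) [Field K] [NumberField K] (x : ℝ) :
    (∑ n ∈ Finset.Icc 1 ⌊x⌋₊, (aK K n : ℝ)) ≤
      ({I : Ideal (𝓞 K) | I ≠ ⊥ ∧ nm I ≤ x}.ncard : ℝ) := by
  classical
  set F := (cnb_finite K x).toFinset with hF
  have hF1 : {I : Ideal (𝓞 K) | I ≠ ⊥ ∧ nm I ≤ x}.ncard = F.card :=
    Set.ncard_eq_toFinset_card _ (cnb_finite K x)
  have h1 : ∀ n ∈ Finset.Icc 1 ⌊x⌋₊, aK K n = (F.filter fun I => Ideal.absNorm I = n).card := by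
    intro n hn
    rw [Finset.mem_Icc] at hn
    unfold aK
    rw [← Set.ncard_coe_finset]
    congr 1
    ext I
    simp only [Set.mem_setOf_eq, Finset.coe_filter, hF, Set.Finite.mem_toFinset]
    constructor
    · intro h
      refine ⟨⟨?_, ?_⟩, h⟩
      · rintro rfl
        rw [Ideal.absNorm_bot] at h
        omega
      · have h2 : x ≥ 0 ∨ x < 0 := le_or_gt 0 x
        rcases h2 with h2 | h2
        · have h3 : (n : ℝ) ≤ x := (Nat.le_floor_iff h2).1 hn.2
          show ((Ideal.absNorm I : ℕ) : ℝ) ≤ x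
          rw [h]
          exact h3
        · rw [Nat.floor_of_nonpos h2.le] at hn
          omega
    · exact fun h => h.2
  have h2 : ∑ n ∈ Finset.Icc 1 ⌊x⌋₊, aK K n ≤ F.card := by
    rw [Finset.sum_congr rfl h1, Finset.sum_card_fiberwise_eq_card_filter]
    exact Finset.card_filter_le _ _
  rw [hF1]
  exact_mod_cast h2

theorem pf_CNB (h : T_IDB) : T_CNB := by
  obtain ⟨C, hC0, hC⟩ := h
  refine ⟨2 * C, by positivity, ?_⟩
  intro K _ _ h2 hf
  have hd : (1 : ℝ) ≤ |(discr K : ℝ)| := by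
    have h0 : discr K ≠ 0 := discr_ne_zero K
    have := Int.one_le_abs h0
    exact_mod_cast this
  have hs : 1 ≤ Real.sqrt |(discr K : ℝ)| := Real.one_le_sqrt.2 hd
  have h3 := hC K (2 * Real.sqrt |(discr K : ℝ)|) h2 hf (by linarith)
  have h4 : hc K ≤ _ := Pool.Agent.H99.CF.pf_MHN K h2
  have h5 := cnb_sum K (2 * Real.sqrt |(discr K : ℝ)|)
  calc hc K ≤ _ := h4
    _ ≤ _ := h5
    _ ≤ _ := h3
    _ = _ := by ring

end Pool.Agent.H69.HH
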