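import Pool.Agent.H33.HH.TD
import Pool.Agent.H86.CV.DV

/-!
MP_347b49_nt, module HLF: sums of `N(I)^(-1/2)`.
-/

set_option autoImplicit false

open NumberField

namespace Pool.Agent.H69.HH

open Pool.Agent.H33.HH Pool.Agent.H28.RC Pool.Agent.H37.CV

theorem hlf_nm_one {K : Type} [Field K] [NumberField K] (I : Ideal (𝓞 K)) (hI : I ≠ ⊥) :
    1 ≤ nm I := by
  have h : Ideal.absNorm I ≠ 0 := by
    rw [Ne, Ideal.absNorm_eq_zero_iff]
    exact hI
  have h1 : 1 ≤ Ideal.absNorm I := Nat.one_le_iff_ne_zero.2 h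
  show (1 : ℝ) ≤ ((Ideal.absNorm I : ℕ) : ℝ)
  exact_mod_cast h1

theorem hlf_rpow {x : ℝ} (hx : 0 ≤ x) : x ^ (-(1 / 2) : ℝ) = 1 / Real.sqrt x := by
  rw [Real.rpow_neg hx, ← Real.sqrt_eq_rpow, one_div]

theorem hlf_step {K : Type} [Field K] [NumberField K] (C : ℝ) (hC : 0 ≤ C)
    (h : ∀ (x : ℝ) (X : Finset (Ideal (𝓞 K))), 1 ≤ x → (∀ I ∈ X, I ≠ ⊥ ∧ nm I ≤ x) →
      (X.card : ℝ) ≤ C * x) (m : ℕ) :
    ∀ (x : ℝ) (X : Finset (Ideal (𝓞 K))), 0 < x → x < 2 ^ m → (∀ I ∈ X, I ≠ ⊥ ∧ nm I ≤ x) →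
      ∑ I ∈ X, 1 / Real.sqrt (nm I) ≤ 5 * C * Real.sqrt x := by
  classical
  have hsmall : ∀ (x : ℝ) (X : Finset (Ideal (𝓞 K))), x < 1 → (∀ I ∈ X, I ≠ ⊥ ∧ nm I ≤ x) →
      ∑ I ∈ X, 1 / Real.sqrt (nm I) ≤ 5 * C * Real.sqrt x := by
    intro x X hx hX
    have : X = ∅ := by
      rw [Finset.eq_empty_iff_forall_notMem]
      intro I hI
      have h1 := hlf_nm_one I (hX I hI).1
      have h2 := (hX I hI).2
      linarith
    rw [this, Finset.sum_empty]
    have := Real.sqrt_nonneg x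
    positivity
  induction m with
  | zero =>
    intro x X hx0 hx hX
    exact hsmall x X (by simpa using hx) hX
  | succ m ih =>
    intro x X hx0 hx hX
    rcases lt_or_ge x 1 with hx1 | hx1
    · exact hsmall x X hx1 hX
    rw [← Finset.sum_filter_add_sum_filter_not X (fun I => nm I ≤ x / 2)]
    have h1 := ih (x / 2) (X.filter fun I => nm I ≤ x / 2) (by linarith)
      (by rw [pow_succ] at hx; linarith) (by
        intro I hI
        rw [Finset.mem_filter] at hI
        exact ⟨(hX I hI.1).1, hI.2⟩)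
    have h2 : ∑ I ∈ X.filter (fun I => ¬ nm I ≤ x / 2), 1 / Real.sqrt (nm I) ≤
        C * x * (1 / Real.sqrt (x / 2)) := by
      calc ∑ I ∈ X.filter (fun I => ¬ nm I ≤ x / 2), 1 / Real.sqrt (nm I)
          ≤ ∑ _I ∈ X.filter (fun I => ¬ nm I ≤ x / 2), 1 / Real.sqrt (x / 2) := by
            apply Finset.sum_le_sum
            intro I hI
            rw [Finset.mem_filter, not_le] at hI
            have h3 : 0 < Real.sqrt (x / 2) := Real.sqrt_pos.2 (by linarith)
            exact one_div_le_one_div_of_le h3 (Real.sqrt_le_sqrt hI.2.le)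
        _ = ((X.filter (fun I => ¬ nm I ≤ x / 2)).card : ℝ) * (1 / Real.sqrt (x / 2)) := by
            rw [Finset.sum_const, nsmul_eq_mul]
        _ ≤ C * x * (1 / Real.sqrt (x / 2)) := by
            apply mul_le_mul_of_nonneg_right _ (by positivity)
            apply h x _ hx1
            intro I hI
            rw [Finset.mem_filter] at hI
            exact hX I hI.1
    set s := Real.sqrt x with hs
    have hs0 : 0 < s := Real.sqrt_pos.2 hx0
    have hs2 : x = s ^ 2 := (Real.sq_sqrt hx0.le).symm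
    set r := Real.sqrt 2 with hr
    have hr2 : r ^ 2 = 2 := Real.sq_sqrt (by norm_num)
    have hr0 : 0 < r := Real.sqrt_pos.2 (by norm_num)
    have hxr : Real.sqrt (x / 2) = s / r := by
      rw [Real.sqrt_div hx0.le]
    rw [hxr] at h1 h2
    have e1 : C * x * (1 / (s / r)) = C * s * r := by
      rw [hs2]
      field_simp
    have e2 : 5 * C * (s / r) = 5 / 2 * (C * s) * r := by
      have : 1 / r = r / 2 := by
        rw [div_eq_div_iff hr0.ne' (by norm_num)]
        nlinarith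
      calc 5 * C * (s / r) = 5 * C * s * (1 / r) := by ring
        _ = _ := by rw [this]; ring
    rw [e1] at h2
    rw [e2] at h1
    have hr3 : r ≤ 10 / 7 := by
      rw [hr, Real.sqrt_le_left (by norm_num)]
      norm_num
    have hCs : 0 ≤ C * s := by positivity
    have : C * s * r ≤ C * s * (10 / 7) := mul_le_mul_of_nonneg_left hr3 hCs
    nlinarith

theorem pf_HLF : T_HLF := by
  intro K _ _
  obtain ⟨C, hC⟩ := (Pool.Agent.H86.CV.pf_DV K).2
  set C' := max C 0 with hC'
  refine ⟨5 * C', by positivity, ?_⟩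
  intro x X hx hX
  obtain ⟨m, hm⟩ := pow_unbounded_of_one_lt x (by norm_num : (1 : ℝ) < 2)
  have h1 := hlf_step C' (le_max_right _ _) (fun y Y hy hY => by
    refine ((hC y Y hy hY).1).trans ?_
    exact mul_le_mul_of_nonneg_right (le_max_left _ _) (by linarith)) m x X (by linarith) hm hX
  rw [← Real.sqrt_eq_rpow]
  refine le_trans (le_of_eq ?_) h1
  apply Finset.sum_congr rfl
  intro I hI
  exact hlf_rpow (by linarith [hlf_nm_one I (hX I hI).1])

end Pool.Agent.H69.HH
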