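import Pool.Agent.H33.HH.TD

/-!
MP_347b49_nt, module LB3: the lower bound for the number of the characters.
-/

set_option autoImplicit false

open NumberField MeasureTheory
open scoped ContDiff

namespace Pool.Agent.H69.HH

open Pool.Agent.H33.HH Pool.Agent.H28.RC Pool.Agent.H37.CV

theorem lb3_W1 (W : ℝ → ℝ) (hW : IsW W) (h0 : ∀ u, u ≤ 1 / 8 → W u = 0)
    (h1 : ∀ u, 1 / 4 ≤ u → u ≤ 7 / 8 → W u = 1) : 0 < W1 W := by
  have hcont : Continuous fun u : ℝ => u * W u := continuous_id.mul hW.smooth.continuous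
  have hcomp : HasCompactSupport fun u : ℝ => u * W u := by
    apply HasCompactSupport.intro (isCompact_Icc (a := (1 / 8 : ℝ)) (b := 1))
    intro u hu
    rw [Set.mem_Icc, not_and_or, not_le, not_le] at hu
    rcases hu with hu | hu
    · simp [h0 u hu.le]
    · simp [hW.high u hu.le]
  have hint : Integrable fun u : ℝ => u * W u := hcont.integrable_of_hasCompactSupport hcomp
  have h2 : ∫ u in Set.Icc (1 / 4 : ℝ) (7 / 8), u * W u ≤ W1 W := by
    apply setIntegral_mono_set hint.integrableOn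
    · filter_upwards [ae_restrict_mem measurableSet_Ioi] with u hu
      exact mul_nonneg (le_of_lt hu) (hW.bd u).1
    · apply HasSubset.Subset.eventuallyLE
      intro u hu
      exact lt_of_lt_of_le (by norm_num : (0 : ℝ) < 1 / 4) hu.1
  have h3 : ∫ _u in Set.Icc (1 / 4 : ℝ) (7 / 8), (1 / 4 : ℝ) ≤
      ∫ u in Set.Icc (1 / 4 : ℝ) (7 / 8), u * W u := by
    apply setIntegral_mono_on
    · exact integrableOn_const (by simp)
    · exact hint.integrableOn
    · exact measurableSet_Icc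
    · intro u hu
      rw [h1 u hu.1 hu.2, mul_one]
      exact hu.1
  have h4 : 0 < ∫ _u in Set.Icc (1 / 4 : ℝ) (7 / 8), (1 / 4 : ℝ) := by
    rw [setIntegral_const]
    simp only [Real.volume_real_Icc, smul_eq_mul]
    norm_num
  linarith

theorem lb3_np {K : Type} [Field K] [NumberField K] (p : PrI K) : 2 ≤ np p := by
  have h0 : Ideal.absNorm p.1 ≠ 0 := by
    rw [Ne, Ideal.absNorm_eq_zero_iff]
    exact p.2.2
  have h1 : Ideal.absNorm p.1 ≠ 1 := by
    rw [Ne, Ideal.absNorm_eq_one_iff]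
    exact p.2.1.ne_top
  have h2 : 2 ≤ Ideal.absNorm p.1 := by omega
  show (2 : ℝ) ≤ ((Ideal.absNorm p.1 : ℕ) : ℝ)
  exact_mod_cast h2

theorem lb3_rk (K : Type) [Field K] [NumberField K] (hw : 0 < wu K) (P : ℝ) : 0 < rk K P := by
  unfold rk rh
  have h1 : 0 < hc K := by
    have : 0 < classNumber K := Fintype.card_pos
    show (0 : ℝ) < ((classNumber K : ℕ) : ℝ)
    exact_mod_cast this
  have h2 : 0 < sd K := by
    have h0 : discr K ≠ 0 := discr_ne_zero K
    have h3 : (discr K : ℝ) ≠ 0 := by exact_mod_cast h0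
    exact Real.sqrt_pos.2 (abs_pos.2 h3)
  have h3 : 0 < ∏ p ∈ SP K P, (1 - 1 / np p) := by
    apply Finset.prod_pos
    intro p _
    have h4 := lb3_np p
    have h5 : 1 / np p ≤ 1 / 2 := one_div_le_one_div_of_le (by norm_num) h4
    linarith
  have h4 := Real.pi_pos
  positivity

/-- The number of the characters, as a sum over the conductors. -/
theorem lb3_M0 (K : Type) [Field K] [NumberField K] (hfin : ∀ m : Ideal (𝓞 K), m ≠ ⊥ →
    (Pr K m).Finite) (P Q : ℝ) (hQ : 0 < Q) (W : ℝ → ℝ) (hW : IsW W) :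
    M0 P Q W (⊤ : Ideal (𝓞 K)) ≤ ((Al K Q).ncard : ℝ) := by
  classical
  have hN : {I : Ideal (𝓞 K) | nm I ≤ Q}.Finite := by
    apply (Ideal.finite_setOf_absNorm_le (S := 𝓞 K) ⌊Q⌋₊).subset
    intro I hI
    exact Nat.le_floor hI
  have hN' : {I : NI K | nm I.1 ≤ Q}.Finite := by
    apply Set.Finite.preimage (Subtype.val_injective.injOn) hN
  set F := hN'.toFinset with hF
  have hFm : ∀ I : NI K, I ∈ F ↔ nm I.1 ≤ Q := by
    intro I
    rw [hF, Set.Finite.mem_toFinset]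
    exact Iff.rfl
  set G : NI K → Finset (RCC K) := fun I => (hfin I.1 I.2).toFinset with hG
  have hGc : ∀ I : NI K, (Pr K I.1).ncard = (G I).card := fun I =>
    Set.ncard_eq_toFinset_card _ (hfin I.1 I.2)
  have hGm : ∀ (I : NI K) (χ : RCC K), χ ∈ G I ↔ χ.f = I.1 := by
    intro I χ
    rw [hG, Set.Finite.mem_toFinset]
    exact Iff.rfl
  have hAl : Al K Q = ((F.biUnion G : Finset (RCC K)) : Set (RCC K)) := by
    ext χ
    rw [Finset.mem_coe, Finset.mem_biUnion]
    constructor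
    · intro h
      exact ⟨⟨χ.f, χ.f_ne⟩, (hFm _).2 h, (hGm _ _).2 rfl⟩
    · rintro ⟨I, hI, hχ⟩
      have h1 := (hGm _ _).1 hχ
      show nm χ.f ≤ Q
      rw [h1]
      exact (hFm _).1 hI
  have hcard : (F.biUnion G).card = ∑ I ∈ F, (G I).card := by
    apply Finset.card_biUnion
    intro I _ J _ hIJ
    rw [Function.onFun, Finset.disjoint_left]
    intro χ h1 h2
    exact hIJ (Subtype.ext (((hGm _ _).1 h1).symm.trans ((hGm _ _).1 h2)))
  rw [hAl, Set.ncard_coe_finset, hcard]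
  unfold M0 sumC
  rw [tsum_eq_sum (s := F)]
  · push_cast
    apply Finset.sum_le_sum
    intro I _
    have h2 : (0 : ℝ) ≤ (G I).card := Nat.cast_nonneg _
    split_ifs
    · rw [Ideal.top_mul, hGc]
      have h1 := (hW.bd (nm I.1 / Q)).2
      calc W (nm I.1 / Q) * ((G I).card : ℝ) ≤ 1 * ((G I).card : ℝ) :=
            mul_le_mul_of_nonneg_right h1 h2
        _ = _ := one_mul _
    · exact h2
  · intro I hI
    rw [hFm, not_le] at hI
    split_ifs
    · show W (nm I.1 / Q) * ((Pr K (⊤ * I.1)).ncard : ℝ) = 0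
      rw [hW.high _ ((one_le_div hQ).2 hI.le), zero_mul]
    · rfl

theorem pf_LB3 (h1 : T_MZ) (h2 : T_WEX) (h3 : T_IEX) (h4 : T_PHM) (h5 : T_NRM) : T_LB3 := by
  intro K _ _ _
  obtain ⟨hTC, hw, -⟩ := h5 K
  obtain ⟨W, hW, hW0, hW1⟩ := h2 (1 / 8) (by norm_num) (by norm_num)
  have hpos : 0 < W1 W := lb3_W1 W hW hW0 (fun u hu1 hu2 => hW1 u (by linarith) (by linarith))
  obtain ⟨P₀, hP₀⟩ := h1 K W hW hpos (1 / 2) (by norm_num)
  have hSm : Sm' P₀ (⊤ : Ideal (𝓞 K)) := by
    refine ⟨top_ne_bot, ?_⟩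
    intro p hp
    exact absurd (top_le_iff.1 hp) p.2.1.ne_top
  set A : ℝ := hc K / wu K * phs (⊤ : Ideal (𝓞 K)) * rk K P₀ * W1 W with hA
  have hhc : 0 < hc K := by
    have : 0 < classNumber K := Fintype.card_pos
    show (0 : ℝ) < ((classNumber K : ℕ) : ℝ)
    exact_mod_cast this
  have hApos : 0 < A := by
    rw [hA, (h4 K).2.1]
    have := lb3_rk K hw P₀
    positivity
  obtain ⟨Q₀, hQ₀, hQ⟩ := hP₀ P₀ le_rfl ⊤ hSm (A / 4) (by positivity)
  refine ⟨A / 4, Q₀, by positivity, hQ₀, ?_⟩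
  intro x hx
  have h6 := (hQ x hx).1
  have h7 := lb3_M0 K (fun m hm => (h3 K m hm).1) P₀ x (by linarith) W hW
  have h8 : A0 P₀ x W (⊤ : Ideal (𝓞 K)) = A * x ^ 2 := rfl
  rw [h8] at h6
  linarith

end Pool.Agent.H69.HH
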