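import Pool.Agent.H33.HH.TD

/-!
MP_347b49_nt, module PR3: characters of a finite abelian group with a given value.
-/

set_option autoImplicit false

namespace Pool.Agent.H69.HH

open Pool.Agent.H33.HH

theorem pf_PR3 : T_PR3 := by
  intro G _ _ g z j hj hg
  have hfin : Finite (G →* ℂˣ) := inferInstance
  refine ⟨Set.toFinite _, ?_⟩
  rcases Set.eq_empty_or_nonempty {l : G →* ℂˣ | l g = z} with h | ⟨l0, hl0⟩
  · rw [h]
    simp
  have hl0' : l0 g = z := hl0
  have hker : ∀ l : {l : G →* ℂˣ | l g = z},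
      l.1 / l0 ∈ (MonoidHom.domRestrictHom (Subgroup.zpowers g) ℂˣ).ker := by
    intro l
    have hl : l.1 g = z := l.2
    rw [MonoidHom.mem_ker]
    ext ⟨y, hy⟩
    obtain ⟨k, rfl⟩ := Subgroup.mem_zpowers_iff.1 hy
    have h1 : (l.1 / l0) (g ^ k) = 1 := by
      rw [map_zpow, MonoidHom.div_apply, hl, hl0', div_self', one_zpow]
    have h2 : (MonoidHom.domRestrictHom (Subgroup.zpowers g) ℂˣ (l.1 / l0)) ⟨g ^ k, hy⟩ =
        (l.1 / l0) (g ^ k) := rfl
    rw [h2, h1]
    rfl
  have h1 : {l : G →* ℂˣ | l g = z}.ncard ≤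
      Nat.card (MonoidHom.domRestrictHom (Subgroup.zpowers g) ℂˣ).ker := by
    rw [← Nat.card_coe_set_eq]
    apply Nat.card_le_card_of_injective
      (fun l : {l : G →* ℂˣ | l g = z} => (⟨l.1 / l0, hker l⟩ :
        (MonoidHom.domRestrictHom (Subgroup.zpowers g) ℂˣ).ker))
    intro l l' hll
    have h2 : l.1 / l0 = l'.1 / l0 := congrArg Subtype.val hll
    exact Subtype.ext (div_left_injective h2)
  rw [CommGroup.card_domRestrictHom_ker] at h1
  have h3 : j ≤ orderOf g := by
    by_contra hcon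
    push Not at hcon
    exact hg (orderOf g) (orderOf_pos g) hcon (pow_orderOf_eq_one g)
  have h4 := Subgroup.card_eq_card_quotient_mul_card_subgroup (Subgroup.zpowers g)
  rw [Nat.card_zpowers] at h4
  rw [h4, mul_comm j]
  exact Nat.mul_le_mul h1 h3

end Pool.Agent.H69.HH
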